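import Pool.Agent.Helper50.D71.Main

/-!
# MP_d71e86_ag : a negative answer

Over every algebraically closed field `k` of characteristic zero there is a smooth complete
non-projective threefold `X` and a maximal quasi-projective open subset `U` of `X` such that some
irreducible component of `X ∖ U` is a non-rational curve.

The threefold is glued from ten affine charts inside the field `k(s,y,v)`
(`Pool/Agent/Helper50/D71/Defs.lean`): it is the resolved antiflip of a `(-1,-2)`-curve on a
blow-up of a `ℙ¹`-bundle over `ℙ²`.  The non-rational component is birational to the elliptic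
curve `y³ = s² + 1`.
-/

open AlgebraicGeometry CategoryTheory TopologicalSpace

universe u

namespace Pool.Agent.Results.MP_d71e86_ag.NonRationalComponent

open Helper50.D71

/-- For every algebraically closed field `k` of characteristic zero there are a smooth proper
integral scheme `X` over `k` of dimension three which is not projective, a maximal
quasi-projective open subset `U` of `X`, and an integral closed subscheme `C` of `X` of dimension
one whose support is an irreducible component of `X ∖ U` and which is not rational. -/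
theorem result (k : Type u) [Field k] [IsAlgClosed k] [CharZero k] :
    ∃ (X : Scheme.{u}) (f : X ⟶ Spec (.of k)),
      IsIntegral X ∧ Smooth f ∧ IsProper f ∧ topologicalKrullDim X = 3 ∧ ¬ IsProjective f ∧
      ∃ U : X.Opens, Maximal (fun V : X.Opens => IsQuasiProjective (V.ι ≫ f)) U ∧
        ∃ (C : Scheme.{u}) (j : C ⟶ X), IsClosedImmersion j ∧ IsIntegral C ∧
          topologicalKrullDim C = 1 ∧
          Maximal (fun Z : Set X => IsIrreducible Z ∧ Z ⊆ (U : Set X)ᶜ) (Set.range j) ∧
          ¬ Scheme.IsRationalOver (j ≫ f) := by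
  -- a primitive cube root of unity
  obtain ⟨w, hw⟩ : ∃ w : k, w ^ 2 + w + 1 = 0 := by
    have hdeg : (Polynomial.X ^ 2 + Polynomial.X + 1 : Polynomial k).degree ≠ 0 := by
      have h2 : (Polynomial.X ^ 2 + Polynomial.X + 1 : Polynomial k).degree = 2 := by
        compute_degree!
      rw [h2]
      norm_num
    obtain ⟨w, hw⟩ := IsAlgClosed.exists_root _ hdeg
    exact ⟨w, by simpa using hw⟩
  obtain ⟨X, f, c, hM⟩ := exists_model (AA k w) (AA_good w hw)
  have hne : Nonempty Idx := ⟨.inl .S⟩
  have hopen := hM.isOpenImmersion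
  have hint : IsIntegral X := hM.isIntegral
  have hnoeth : NoetherianSpace X := hM.noetherianSpace (AA_fg w hw)
  have hdim : topologicalKrullDim X = 3 :=
    hM.dim_eq 3 (AA_dim_le w hw) ⟨.inl .W, three_le_chart_dim k⟩
  have hproper : IsProper f := hM.isProper (AA_good w hw) (AA_fg w hw) (AA_frac w hw) (by
    intro V hV
    obtain ⟨d, hd⟩ := exists_chart_le k V hV
    exact ⟨.inl d, hd⟩)
  -- the open subset `U₀`
  let U₀ : X.Opens := (c (.inr false)).opensRange ⊔ (c (.inr true)).opensRange
  have hU₀ : (U₀ : Set X) = Set.range (c (.inr false)) ∪ Set.range (c (.inr true)) := rfl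
  have hqp : IsQuasiProjective (U₀.ι ≫ f) :=
    hM.isQuasiProjective_pair (.inr false) (.inr true) (phi k w) (phi_ne k w hw)
      (phi_mem k w hw) (phi_inv_mem k w hw) (sup_le_Ax k w hw) (sup_le_Ar k w hw)
      (AA_fg w hw _) (AA_fg w hw _) U₀ hU₀
  obtain ⟨U, hU₀U, hmax⟩ := exists_maximal_qp f U₀ hqp
  have hx : Set.range (c (.inr false)) ⊆ U :=
    fun x hx => hU₀U (show x ∈ (U₀ : Set X) from hU₀ ▸ Or.inl hx)
  have hr : Set.range (c (.inr true)) ⊆ U :=
    fun x hx => hU₀U (show x ∈ (U₀ : Set X) from hU₀ ▸ Or.inr hx)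
  obtain ⟨C, j, hj, hC, hrange⟩ := exists_closedSubscheme (c (.inl .S) (etaE k w))
  refine ⟨X, f, hint, hM.smooth (AA_smooth w hw), hproper, hdim, ?_, U, hmax, C, j, hj, hC,
    dim_E hM hdim j hrange, ?_, E_not_rational hM j hrange⟩
  · rintro ⟨n, i, hi, hif⟩
    have htop : IsQuasiProjective ((⊤ : X.Opens).ι ≫ f) :=
      ⟨n, (⊤ : X.Opens).ι ≫ i, inferInstance, by rw [Category.assoc, hif]⟩
    exact etaE_notMem hw hM ⊤ htop (Set.subset_univ _) (Set.subset_univ _) trivial
  · rw [hrange]
    exact maximal_closure (U : Set X) U.isOpen _ (etaE_notMem hw hM U hmax.prop hx hr)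
      (etaE_gen hw hM (U : Set X) hx hr)

end Pool.Agent.Results.MP_d71e86_ag.NonRationalComponent
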